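import Pool.Agent.helper55.BL.Spec

/-!
Project BL, row PIG: pigeonhole for pairwise disjoint sets.
-/

set_option autoImplicit false

namespace Pool.Agent.helper55.BL

open Finset
open scoped Classical
open Pool.Agent.helper61.BM (Clo dg)

theorem PIG : PIG_stmt := by
  intro V _ A Z F f K hdis hf hcard
  have h0 : (F.filter (fun E => ¬ Disjoint E Z)).card ≤ Z.card := by
    have hex : ∀ E : Finset V, ¬ Disjoint E Z → ∃ x, x ∈ E ∧ x ∈ Z := by
      intro E hE
      exact Finset.not_disjoint_iff.mp hE
    rcases isEmpty_or_nonempty V with hV | hV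
    · have he : F.filter (fun E => ¬ Disjoint E Z) = ∅ := by
        apply Finset.filter_eq_empty_iff.mpr
        intro E _ hE
        obtain ⟨x, _, _⟩ := hex E hE
        exact hV.elim x
      rw [he, Finset.card_empty]
      exact Nat.zero_le _
    · choose! g hg using hex
      apply Finset.card_le_card_of_injOn g
      · intro E hE
        rw [Finset.mem_coe, Finset.mem_filter] at hE
        exact (hg E hE.2).2
      · intro E hE E' hE' heq
        rw [Finset.mem_coe, Finset.mem_filter] at hE hE'
        by_contra hne
        have h1 := (hg E hE.2).1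
        have h2 := (hg E' hE'.2).1
        rw [← heq] at h2
        exact Finset.disjoint_left.mp (hdis E hE.1 E' hE'.1 hne) h1 h2
  have h1 := Finset.card_filter_add_card_filter_not (s := F) (fun E => Disjoint E Z)
  have h2 : A.powerset.card * K < (F.filter (fun E => Disjoint E Z)).card := by
    rw [Finset.card_powerset]
    omega
  obtain ⟨S, hS, hK⟩ := Finset.exists_lt_card_fiber_of_mul_lt_card_of_maps_to
    (s := F.filter (fun E => Disjoint E Z)) (t := A.powerset) (f := f) (n := K)
    (fun E hE => Finset.mem_powerset.mpr (hf E (Finset.mem_filter.mp hE).1)) h2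
  refine ⟨S, Finset.mem_powerset.mp hS, _, ?_, hK, ?_⟩
  · intro E hE
    exact (Finset.mem_filter.mp (Finset.mem_filter.mp hE).1).1
  · intro E hE
    exact ⟨(Finset.mem_filter.mp hE).2, (Finset.mem_filter.mp (Finset.mem_filter.mp hE).1).2⟩

end Pool.Agent.helper55.BL
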